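import Pool.Agent.V11258.HP.Expo
import Pool.Agent.Helper446.Comp

set_option autoImplicit false

/-! A computable colouring from a computable approximation to a nested sequence of intervals. -/

namespace Pool.Agent.V11258.HP

open Pool.Agent.Helper446.RE

/-- the dyadic interval coded by the first pair is contained in the second one -/
def Sub (J' J : ℕ × ℕ) : Prop := J.2 ≤ J'.2 ∧ J'.1 / 2 ^ (J'.2 - J.2) = J.1

theorem Sub.refl (J : ℕ × ℕ) : Sub J J := ⟨le_rfl, by simp⟩

theorem Sub.trans {J K L : ℕ × ℕ} (h1 : Sub J K) (h2 : Sub K L) : Sub J L := by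
  refine ⟨h2.1.trans h1.1, ?_⟩
  have e : J.2 - L.2 = (J.2 - K.2) + (K.2 - L.2) := by have := h1.1; have := h2.1; omega
  rw [e, pow_add, ← Nat.div_div_eq_div_mul, h1.2, h2.2]

theorem Sub.bounds {J' J : ℕ × ℕ} (h : Sub J' J) :
    (J.1 : ℚ) ≤ J'.1 / 2 ^ J'.2 * 2 ^ J.2 ∧ (J'.1 : ℚ) / 2 ^ J'.2 * 2 ^ J.2 ≤ J.1 + 1 := by
  obtain ⟨h1, h2⟩ := h
  obtain ⟨d, hd⟩ : ∃ d, J'.2 = J.2 + d := ⟨J'.2 - J.2, by omega⟩
  have e : J'.2 - J.2 = d := by omega
  rw [e] at h2
  have hp : (0 : ℚ) < 2 ^ d := by positivity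
  have e2 : (J'.1 : ℚ) / 2 ^ J'.2 * 2 ^ J.2 = J'.1 / 2 ^ d := by
    rw [hd, pow_add]; field_simp
  rw [e2]
  have h3 : J.1 * 2 ^ d ≤ J'.1 := by rw [← h2]; exact Nat.div_mul_le_self _ _
  have h4 : J'.1 ≤ (J.1 + 1) * 2 ^ d := by
    rw [← h2]
    have := Nat.lt_mul_div_succ J'.1 (show 0 < 2 ^ d by positivity)
    rw [mul_comm]; exact this.le
  constructor
  · rw [le_div_iff₀ hp]; exact_mod_cast h3
  · rw [div_le_iff₀ hp]; exact_mod_cast h4

/-- the colouring property of an interval -/
def Col (c : ℕ → Bool) (a m : ℕ) : Prop :=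
  ∃ y0, ∀ y, y0 ≤ y → ∃ z, ∀ h,
    (2 ^ m ≤ (h * a + z) % 2 ^ (m + 1) ∧ (h * a + z) % 2 ^ (m + 1) + h + 1 < 2 ^ (m + 1) →
      c (y + h) = true) ∧
    (2 ^ m ≤ (h * a + (z + 2 ^ m)) % 2 ^ (m + 1) ∧
      (h * a + (z + 2 ^ m)) % 2 ^ (m + 1) + h + 1 < 2 ^ (m + 1) → c (y + h) = false)

section
variable (good : ℕ → ℕ × ℕ → ℕ → Bool) (out : ℕ → ℕ × ℕ)

/-- the search -/
def sr (i : ℕ) (J : ℕ × ℕ) (s : ℕ) : Option ℕ :=
  Nat.rec (motive := fun _ => Option ℕ) none
    (fun n ih => bif ih.isSome then ih else bif good i J n then some n else none) s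

theorem sr_succ (i : ℕ) (J : ℕ × ℕ) (s : ℕ) : sr good i J (s + 1) =
    bif (sr good i J s).isSome then sr good i J s else
      bif good i J s then some s else none := rfl

theorem sr_none {i : ℕ} {J : ℕ × ℕ} {s : ℕ} (h : ∀ n < s, good i J n = false) :
    sr good i J s = none := by
  induction s with
  | zero => rfl
  | succ s ih =>
    rw [sr_succ, ih (fun n hn => h n (by omega)), h s (by omega)]
    rfl

theorem sr_some {i : ℕ} {J : ℕ × ℕ} {n s : ℕ} (h : ∀ k < n, good i J k = false)
    (hn : good i J n = true) (hs : n < s) : sr good i J s = some n := by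
  obtain ⟨d, rfl⟩ := Nat.exists_eq_add_of_lt hs
  clear hs
  induction d with
  | zero =>
    show sr good i J (n + 1) = _
    rw [sr_succ, sr_none good h, hn]; rfl
  | succ d ih =>
    rw [show n + (d + 1) + 1 = (n + d + 1) + 1 from rfl, sr_succ, ih]; rfl

/-- the next interval -/
def nx (i : ℕ) (J : ℕ × ℕ) (s : ℕ) : ℕ × ℕ := (sr good i J s).elim J out

/-- the intervals at stage `s` -/
def Js (s i : ℕ) : ℕ × ℕ := Nat.rec (motive := fun _ => ℕ × ℕ) (0, 0) (fun i ih => nx good out i ih s) i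

/-- the limits of the intervals -/
noncomputable def JL (i : ℕ) : ℕ × ℕ := by
  classical
  exact Nat.rec (motive := fun _ => ℕ × ℕ) (0, 0)
    (fun i ih => if h : ∃ n, good i ih n = true then out (Nat.find h) else ih) i

/-- the partial sums -/
def th (x : ℕ) : ℕ × ℕ :=
  Nat.rec (motive := fun _ => ℕ × ℕ) (0, 0) (fun x ih =>
    (ih.1 * 2 ^ (Js good out x x).2 + (Js good out x x).1 * 2 ^ ih.2, ih.2 + (Js good out x x).2)) x

/-- the colouring -/
def col (x : ℕ) : Bool := ((th good out x).1 / 2 ^ (th good out x).2) % 2 == 1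

theorem Js_succ (s i : ℕ) : Js good out s (i + 1) = nx good out i (Js good out s i) s := rfl

theorem th_succ (x : ℕ) : th good out (x + 1) = ((th good out x).1 * 2 ^ (Js good out x x).2 +
    (Js good out x x).1 * 2 ^ (th good out x).2, (th good out x).2 + (Js good out x x).2) := rfl

open Classical in
theorem JL_succ (i : ℕ) : JL good out (i + 1) = if h : ∃ n, good i (JL good out i) n = true then
    out (Nat.find h) else JL good out i := rfl

theorem JL_spec (i : ℕ) : (∃ n, good i (JL good out i) n = true ∧ JL good out (i + 1) = out n) ∨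
    ∀ n, good i (JL good out i) n = false := by
  classical
  by_cases h : ∃ n, good i (JL good out i) n = true
  · left
    refine ⟨Nat.find h, Nat.find_spec h, ?_⟩
    rw [JL_succ, dif_pos h]
  · right
    intro n
    by_contra hc
    exact h ⟨n, by simpa using hc⟩

theorem stable (i : ℕ) : ∃ s0, ∀ s, s0 ≤ s → Js good out s i = JL good out i := by
  classical
  induction i with
  | zero => exact ⟨0, fun _ _ => rfl⟩
  | succ i ih =>
    obtain ⟨s0, h0⟩ := ih
    by_cases h : ∃ n, good i (JL good out i) n = true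
    · refine ⟨max s0 (Nat.find h + 1), fun s hs => ?_⟩
      rw [Js_succ, h0 s ((le_max_left _ _).trans hs), JL_succ, dif_pos h, nx,
        sr_some good (n := Nat.find h) (fun k hk => by simpa using Nat.find_min h hk)
          (Nat.find_spec h) (by have := (le_max_right _ _).trans hs; omega)]
      rfl
    · refine ⟨s0, fun s hs => ?_⟩
      rw [Js_succ, h0 s hs, JL_succ, dif_neg h, nx, sr_none good]
      · rfl
      · intro n _
        by_contra hc
        exact h ⟨n, by simpa using hc⟩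

variable {good out}

theorem nx_sub (hsub : ∀ i J n, good i J n = true → Sub (out n) J) (i : ℕ) (J : ℕ × ℕ) (s : ℕ) :
    Sub (nx good out i J s) J := by
  unfold nx
  induction s with
  | zero => exact Sub.refl _
  | succ s ih =>
    rw [sr_succ]
    rcases h : sr good i J s with _ | n
    · rcases h2 : good i J s with _ | _
      · exact Sub.refl _
      · exact hsub i J s h2
    · rw [h] at ih
      exact ih

theorem Js_sub (hsub : ∀ i J n, good i J n = true → Sub (out n) J) (s : ℕ) {i j : ℕ} (h : i ≤ j) :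
    Sub (Js good out s j) (Js good out s i) := by
  induction j, h using Nat.le_induction with
  | base => exact Sub.refl _
  | succ j _ ih => exact (nx_sub hsub j _ s).trans ih

/-- the partial sum as a rational -/
def rt (p : ℕ × ℕ) : ℚ := p.1 / 2 ^ p.2

theorem rt_th_succ (x : ℕ) : rt (th good out (x + 1)) = rt (th good out x) + rt (Js good out x x) := by
  rw [th_succ]
  unfold rt
  push_cast
  rw [pow_add]
  field_simp

theorem col_odd {x q : ℕ} (h1 : (2 * q + 1 : ℚ) ≤ rt (th good out x))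
    (h2 : rt (th good out x) < 2 * q + 2) : col good out x = true := by
  have h3 : ⌊rt (th good out x)⌋₊ = (th good out x).1 / 2 ^ (th good out x).2 := by
    unfold rt
    have := Nat.floor_div_eq_div (K := ℚ) (th good out x).1 (2 ^ (th good out x).2)
    push_cast at this
    exact this
  have h4 : ⌊rt (th good out x)⌋₊ = 2 * q + 1 := by
    rw [Nat.floor_eq_iff' (by omega)]
    push_cast
    constructor <;> linarith
  unfold col
  rw [← h3, h4, beq_iff_eq]
  omega

theorem col_even {x q : ℕ} (h1 : (2 * q + 1 : ℚ) ≤ rt (th good out x) + 1)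
    (h2 : rt (th good out x) + 1 < 2 * q + 2) : col good out x = false := by
  have h3 : ⌊rt (th good out x)⌋₊ = (th good out x).1 / 2 ^ (th good out x).2 := by
    unfold rt
    have := Nat.floor_div_eq_div (K := ℚ) (th good out x).1 (2 ^ (th good out x).2)
    push_cast at this
    exact this
  have h0 : 0 ≤ rt (th good out x) := by unfold rt; positivity
  have h4 : ⌊rt (th good out x)⌋₊ = 2 * q := by
    rw [Nat.floor_eq_iff h0]
    push_cast
    constructor <;> linarith
  unfold col
  rw [← h3, h4, beq_eq_false_iff_ne]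
  omega

theorem col_Col (hsub : ∀ i J n, good i J n = true → Sub (out n) J) (i : ℕ) :
    Col (col good out) (JL good out i).1 (JL good out i).2 := by
  obtain ⟨s0, h0⟩ := stable good out i
  set a := (JL good out i).1 with ha
  set m := (JL good out i).2 with hm
  have hP : (0 : ℚ) < 2 ^ m := by positivity
  have hstep : ∀ x, max s0 i ≤ x → (a : ℚ) ≤ rt (Js good out x x) * 2 ^ m ∧
      rt (Js good out x x) * 2 ^ m ≤ a + 1 := by
    intro x hx
    have h1 := (Js_sub hsub x ((le_max_right s0 i).trans hx)).bounds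
    rw [h0 x ((le_max_left _ _).trans hx)] at h1
    exact h1
  have hsum : ∀ y, max s0 i ≤ y → ∀ h : ℕ,
      (h * a : ℚ) ≤ (rt (th good out (y + h)) - rt (th good out y)) * 2 ^ m ∧
      (rt (th good out (y + h)) - rt (th good out y)) * 2 ^ m ≤ h * a + h := by
    intro y hy h
    induction h with
    | zero => simp
    | succ h ih =>
      obtain ⟨h1, h2⟩ := ih
      obtain ⟨h3, h4⟩ := hstep (y + h) (by omega)
      rw [← add_assoc, rt_th_succ]
      push_cast
      constructor <;> nlinarith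
  refine ⟨max s0 i, fun y hy => ⟨⌊rt (th good out y) * 2 ^ m⌋₊, fun h => ?_⟩⟩
  set z := ⌊rt (th good out y) * 2 ^ m⌋₊ with hz
  have hz0 : 0 ≤ rt (th good out y) * 2 ^ m := by unfold rt; positivity
  have hz1 : (z : ℚ) ≤ rt (th good out y) * 2 ^ m := Nat.floor_le hz0
  have hz2 : rt (th good out y) * 2 ^ m < z + 1 := Nat.lt_floor_add_one _
  obtain ⟨k1, k2⟩ := hsum y hy h
  have l1 : (h * a + z : ℚ) ≤ rt (th good out (y + h)) * 2 ^ m := by nlinarith
  have l2 : rt (th good out (y + h)) * 2 ^ m < (h * a + z : ℚ) + h + 1 := by nlinarith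
  constructor
  · rintro ⟨w1, w2⟩
    have e := Nat.mod_add_div (h * a + z) (2 ^ (m + 1))
    set w := (h * a + z) % 2 ^ (m + 1)
    set q := (h * a + z) / 2 ^ (m + 1)
    have e' : (w + 2 ^ (m + 1) * q : ℚ) = h * a + z := by exact_mod_cast e
    have w1' : (2 : ℚ) ^ m ≤ w := by exact_mod_cast w1
    have w2' : (w + h + 1 : ℚ) < 2 ^ (m + 1) := by exact_mod_cast w2
    rw [pow_succ] at e' w2'
    refine col_odd (q := q) ?_ ?_
    · refine le_of_mul_le_mul_right ?_ hP
      nlinarith
    · refine lt_of_mul_lt_mul_right ?_ hP.le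
      nlinarith
  · rintro ⟨w1, w2⟩
    have e := Nat.mod_add_div (h * a + (z + 2 ^ m)) (2 ^ (m + 1))
    set w := (h * a + (z + 2 ^ m)) % 2 ^ (m + 1)
    set q := (h * a + (z + 2 ^ m)) / 2 ^ (m + 1)
    have e' : (w + 2 ^ (m + 1) * q : ℚ) = h * a + (z + 2 ^ m) := by exact_mod_cast e
    have w1' : (2 : ℚ) ^ m ≤ w := by exact_mod_cast w1
    have w2' : (w + h + 1 : ℚ) < 2 ^ (m + 1) := by exact_mod_cast w2
    rw [pow_succ] at e' w2'
    refine col_even (q := q) ?_ ?_
    · refine le_of_mul_le_mul_right ?_ hP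
      nlinarith
    · refine lt_of_mul_lt_mul_right ?_ hP.le
      nlinarith

theorem comp_pow {α : Type*} [Primcodable α] {f : α → ℕ} (hf : Computable f) :
    Computable fun x => 2 ^ f x := by
  have h : Primrec₂ (fun a b : ℕ => a ^ b) := Primrec₂.unpaired'.1 Nat.Primrec.pow
  exact (h.comp (Primrec.const 2) Primrec.id).to_comp.comp hf

theorem comp_th {j : ℕ → ℕ × ℕ} (hj : Computable j) : Computable fun x : ℕ =>
    (Nat.rec (motive := fun _ => ℕ × ℕ) (0, 0) (fun x ih =>
      (ih.1 * 2 ^ (j x).2 + (j x).1 * 2 ^ ih.2, ih.2 + (j x).2)) x : ℕ × ℕ) := by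
  have h5 : Computable₂ fun (_ : ℕ) (p : ℕ × (ℕ × ℕ)) =>
      (p.2.1 * 2 ^ (j p.1).2 + (j p.1).1 * 2 ^ p.2.2, p.2.2 + (j p.1).2) := by
    unfold Computable₂
    have h6 : Computable fun y : ℕ × (ℕ × (ℕ × ℕ)) => j y.2.1 := hj.comp (by fun_prop)
    have h7 : Computable fun y : ℕ × (ℕ × (ℕ × ℕ)) => 2 ^ (j y.2.1).2 :=
      comp_pow (by fun_prop)
    have h8 : Computable fun y : ℕ × (ℕ × (ℕ × ℕ)) => 2 ^ y.2.2.2 := comp_pow (by fun_prop)
    fun_prop
  exact Computable.nat_rec (f := fun x : ℕ => x) (g := fun _ => (0, 0))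
    (by fun_prop) (by fun_prop) h5

theorem comp_col (hg : Computable fun x : (ℕ × (ℕ × ℕ)) × ℕ => good x.1.1 x.1.2 x.2)
    (ho : Computable out) : Computable (col good out) := by
  have h1 : Computable fun x : (ℕ × (ℕ × ℕ)) × ℕ => sr good x.1.1 x.1.2 x.2 := by
    unfold sr
    have h2 : Computable₂ fun (x : (ℕ × (ℕ × ℕ)) × ℕ) (p : ℕ × Option ℕ) =>
        bif p.2.isSome then p.2 else bif good x.1.1 x.1.2 p.1 then some p.1 else none := by
      unfold Computable₂
      have h3 : Computable fun y : ((ℕ × (ℕ × ℕ)) × ℕ) × (ℕ × Option ℕ) =>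
          good y.1.1.1 y.1.1.2 y.2.1 :=
        hg.comp (g := fun y : ((ℕ × (ℕ × ℕ)) × ℕ) × (ℕ × Option ℕ) => (y.1.1, y.2.1))
          (((Computable.fst.comp Computable.fst)).pair (Computable.fst.comp Computable.snd))
      have h4 : Computable fun y : ((ℕ × (ℕ × ℕ)) × ℕ) × (ℕ × Option ℕ) => y.2.2 :=
        Computable.snd.comp Computable.snd
      have h5 : Computable fun y : ((ℕ × (ℕ × ℕ)) × ℕ) × (ℕ × Option ℕ) => some y.2.1 :=
        Computable.option_some.comp (Computable.fst.comp Computable.snd)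
      exact ccond (cisSome h4) h4 (ccond h3 h5 (Computable.const _))
    exact Computable.nat_rec (f := fun x : (ℕ × (ℕ × ℕ)) × ℕ => x.2) (g := fun _ => none)
      (h := fun (x : (ℕ × (ℕ × ℕ)) × ℕ) (p : ℕ × Option ℕ) =>
        bif p.2.isSome then p.2 else bif good x.1.1 x.1.2 p.1 then some p.1 else none)
      Computable.snd (Computable.const _) h2
  have h2 : Computable fun x : (ℕ × (ℕ × ℕ)) × ℕ => nx good out x.1.1 x.1.2 x.2 := by
    unfold nx
    have := Computable.option_casesOn (o := fun x : (ℕ × (ℕ × ℕ)) × ℕ => sr good x.1.1 x.1.2 x.2)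
      (f := fun x => x.1.2) (g := fun _ n => out n) h1 (by fun_prop) (ho.comp Computable.snd)
    refine this.of_eq fun x => ?_
    cases sr good x.1.1 x.1.2 x.2 <;> rfl
  have h3 : Computable fun x : ℕ × ℕ => Js good out x.1 x.2 := by
    unfold Js
    have h4 : Computable₂ fun (x : ℕ × ℕ) (p : ℕ × (ℕ × ℕ)) => nx good out p.1 p.2 x.1 := by
      unfold Computable₂
      exact h2.comp (g := fun y : (ℕ × ℕ) × (ℕ × (ℕ × ℕ)) => (y.2, y.1.1)) (by fun_prop)
    exact Computable.nat_rec (f := fun x : ℕ × ℕ => x.2) (g := fun _ => (0, 0))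
      (by fun_prop) (by fun_prop) h4
  have h4 : Computable (th good out) :=
    comp_th (h3.comp (g := fun x : ℕ => (x, x)) (by fun_prop))
  unfold col
  have h5 : Computable fun x => 2 ^ (th good out x).2 := comp_pow (by fun_prop)
  have h6 : Computable fun x => (th good out x).1 / 2 ^ (th good out x).2 :=
    Primrec.nat_div.to_comp.comp (by fun_prop) h5
  have h7 : Computable fun x => (th good out x).1 / 2 ^ (th good out x).2 % 2 :=
    Primrec.nat_mod.to_comp.comp h6 (by fun_prop)
  exact Primrec.beq.to_comp.comp h7 (by fun_prop)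

end

end Pool.Agent.V11258.HP
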