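import Pool.Agent.V11258.HP.Null

set_option autoImplicit false

/-! Almost every set computes a function avoiding a given function, and the final argument. -/

namespace Pool.Agent.V11258.HP

open Pool.Agent.Helper227 Encodable MeasureTheory
open scoped ENNReal
open Nat.Partrec (Code)

/-- the function read off from the blocks of `X` -/
def fj (j : ℕ) (X : ℕ → Bool) (e : ℕ) : ℕ :=
  encode ((List.range (e + j)).map fun i => X (Nat.pair e i))

theorem fj_null (v : ℕ → ℕ) (j : ℕ) : lam {X | ∃ e, fj j X e = v e} ≤ 2 * (1 / 2) ^ j := by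
  have hsub : {X | ∃ e, fj j X e = v e} ⊆ ⋃ e, {X | fj j X e = v e} := by
    rintro X ⟨e, he⟩
    exact Set.mem_iUnion.2 ⟨e, he⟩
  have h1 : ∀ e, lam {X | fj j X e = v e} ≤ (1 / 2) ^ (e + j) := by
    intro e
    by_cases hne : ∃ X0, fj j X0 e = v e
    · obtain ⟨X0, hX0⟩ := hne
      have h2 : {X | fj j X e = v e} ⊆
          {X | ∀ k ∈ (Finset.range (e + j)).image (Nat.pair e), X k = X0 k} := by
        intro X hX k hk
        rw [Finset.mem_image] at hk
        obtain ⟨i, hi, rfl⟩ := hk
        rw [Finset.mem_range] at hi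
        have h3 : fj j X e = fj j X0 e := by rw [hX0]; exact hX
        have h4 := encode_injective h3
        have h5 := congrArg (fun l : List Bool => l[i]?) h4
        simpa [hi] using h5
      refine (measure_mono h2).trans ?_
      rw [lam_coord, Finset.card_image_of_injective _ (fun x y h => by
        have := congrArg Nat.unpair h
        simpa using this), Finset.card_range]
    · have : {X | fj j X e = v e} = ∅ := by
        ext X; simp only [Set.mem_ofPred_eq, Set.mem_empty_iff_false, iff_false]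
        exact fun h => hne ⟨X, h⟩
      rw [this]; simp
  refine (measure_mono hsub).trans ((measure_iUnion_le _).trans ?_)
  refine (ENNReal.tsum_le_tsum h1).trans (le_of_eq ?_)
  simp only [pow_add]
  rw [ENNReal.tsum_mul_right]
  congr 1
  have := ENNReal.tsum_geometric (1 / 2 : ℝ≥0∞)
  rw [this]
  rw [one_div, ENNReal.one_sub_inv_two, inv_inv]

theorem fj_ae (v : ℕ → ℕ) : ∀ᵐ X ∂lam, ∃ j, ∀ e, fj j X e ≠ v e := by
  rw [ae_iff]
  have h : ∀ j : ℕ, lam {X | ¬ ∃ j, ∀ e, fj j X e ≠ v e} ≤ 2 * (1 / 2) ^ j := by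
    intro j
    refine (measure_mono ?_).trans (fj_null v j)
    intro X hX
    simp only [Set.mem_ofPred_eq, not_exists, not_forall, not_not] at hX ⊢
    exact hX j
  refine le_antisymm ?_ zero_le
  have hlim : Filter.Tendsto (fun j : ℕ => 2 * (1 / 2 : ℝ≥0∞) ^ j) Filter.atTop (nhds 0) := by
    have := ENNReal.Tendsto.const_mul (a := 2)
      (ENNReal.tendsto_pow_atTop_nhds_zero_of_lt_one (r := (1 / 2 : ℝ≥0∞)) (by
        rw [one_div]; exact ENNReal.inv_lt_one.2 (by norm_num))) (Or.inr (by norm_num))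
    simpa using this
  exact ge_of_tendsto' hlim h

theorem fj_rec (j : ℕ) (X : ℕ → Bool) :
    TuringReducible (fun n => Part.some (fj j X n)) (chi X) := by
  refine RecursiveIn.iff_nat.2 (recIn_of_graph (G := fun x =>
    (∀ i < x.2.1 + j, Nat.pair x.2.1 i < x.1.length) ∧
      x.2.2 = encode ((List.range (x.2.1 + j)).map fun i => x.1.getD (Nat.pair x.2.1 i) false))
    (S1.of_prim ?_) ?_)
  · refine PrimrecPred.and ?_ ?_
    · refine PP.all_lt (α := List Bool × ℕ × ℕ) (f := fun x => x.2.1 + j)
        (p := fun x i => Nat.pair x.2.1 i < x.1.length) ?_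
        (Primrec.nat_add.comp (Primrec.fst.comp Primrec.snd) (Primrec.const j))
      exact Primrec.nat_lt.comp (Primrec₂.natPair.comp
        (Primrec.fst.comp (Primrec.snd.comp Primrec.fst)) Primrec.snd)
        (Primrec.list_length.comp (Primrec.fst.comp Primrec.fst))
    · refine Primrec.eq.comp (Primrec.snd.comp Primrec.snd) (Primrec.encode.comp
        (Primrec.list_map (f := fun x : List Bool × ℕ × ℕ => List.range (x.2.1 + j))
          (g := fun x i => x.1.getD (Nat.pair x.2.1 i) false)
          (Primrec.list_range.comp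
            (Primrec.nat_add.comp (Primrec.fst.comp Primrec.snd) (Primrec.const j))) ?_))
      exact (Primrec.list_getD false).comp (Primrec.fst.comp Primrec.fst)
        (Primrec₂.natPair.comp (Primrec.fst.comp (Primrec.snd.comp Primrec.fst)) Primrec.snd)
  · intro n m
    rw [Part.mem_some_iff]
    have key : ∀ s, (∀ i < n + j, Nat.pair n i < (pre X s).length) →
        encode ((List.range (n + j)).map fun i => (pre X s).getD (Nat.pair n i) false) = fj j X n := by
      intro s hs
      unfold fj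
      congr 1
      refine List.map_congr_left fun i hi => ?_
      rw [List.mem_range] at hi
      have := hs i hi
      rw [length_pre] at this
      exact pre_getD _ _ _ _ this
    constructor
    · rintro rfl
      refine ⟨(Finset.range (n + j)).sup (fun i => Nat.pair n i + 1), ?_, ?_⟩
      · intro i hi
        rw [length_pre]
        exact Nat.lt_of_succ_le (Finset.le_sup (f := fun i => Nat.pair n i + 1)
          (Finset.mem_range.2 hi))
      · refine (key _ ?_).symm
        intro i hi
        rw [length_pre]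
        exact Nat.lt_of_succ_le (Finset.le_sup (f := fun i => Nat.pair n i + 1)
          (Finset.mem_range.2 hi))
    · rintro ⟨s, h1, h2⟩
      exact Eq.trans h2 (key s h1)

/-- the relation accepted by the `c`-th code with oracle `A` -/
def rel (c : Code) (A : ℕ → Bool) (n m : ℕ) : Prop :=
  ∃ s r, (c.evaln r (encode (pre A s, n, m))).isSome = true

theorem exists_rel {A : ℕ → Bool} {ψ : ℕ →. ℕ} (h : TuringReducible ψ (chi A)) :
    ∃ c, ∀ n m, m ∈ ψ n ↔ rel c A n m := by
  obtain ⟨E, hE, _, eE⟩ := recIn_graph (RecursiveIn.iff_nat.1 h)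
  obtain ⟨c, hc⟩ := Nat.Partrec.Code.exists_code.1 hE.re
  refine ⟨c, fun n b => ?_⟩
  rw [eE]
  refine exists_congr fun s => ?_
  have h1 : (c.eval (encode (pre A s, n, b))).Dom ↔ E (pre A s, n, b) := by
    rw [hc]
    simp [Part.assert]
  rw [← h1]
  constructor
  · intro h
    obtain ⟨y, hy⟩ := Part.dom_iff_mem.1 h
    obtain ⟨k, hk⟩ := Nat.Partrec.Code.evaln_complete.1 hy
    exact ⟨k, Option.isSome_iff_exists.2 ⟨y, hk⟩⟩
  · rintro ⟨n, hn⟩
    obtain ⟨y, hy⟩ := Option.isSome_iff_exists.1 hn
    exact Part.dom_iff_mem.2 ⟨y, Nat.Partrec.Code.evaln_sound hy⟩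

/-- for every set `A`, almost every `X` computes a diagonally noncomputable function
relative to `A`, for every numbering -/
theorem dnc_ae (A : ℕ → Bool) : ∀ᵐ X ∂lam, ∀ ψ : ℕ →. ℕ, TuringReducible ψ (chi A) →
    ∃ f : ℕ → ℕ, TuringReducible (fun n => Part.some (f n)) (chi X) ∧ ∀ e, f e ∉ ψ e := by
  classical
  have h : ∀ᵐ X ∂lam, ∀ c : Code, ∃ j, ∀ e,
      fj j X e ≠ if hh : ∃ m, rel c A e m then hh.choose else 0 := by
    rw [ae_all_iff]
    intro c
    exact fj_ae _
  filter_upwards [h] with X hX ψ hψ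
  obtain ⟨c, hc⟩ := exists_rel hψ
  obtain ⟨j, hj⟩ := hX c
  refine ⟨fj j X, fj_rec j X, fun e he => hj e ?_⟩
  have hh : ∃ m, rel c A e m := ⟨_, (hc _ _).1 he⟩
  rw [dif_pos hh]
  exact Part.mem_unique he ((hc _ _).2 hh.choose_spec)

/-- a set computing a solution is in some `SS c` -/
theorem mem_SS {X h : ℕ → Bool} {f : ℕ → Bool} (hh : TLe h X) (hinf : {n | h n = true}.Infinite)
    {b : Bool} (hb : ∀ x y, h x = true → h y = true → x ≠ y → f (x + y) = b) :
    ∃ c, X ∈ SS c f := by
  obtain ⟨E, hE, mE, eE⟩ := tLe_iff.1 hh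
  have hS : S1 fun x : List Bool × List ℕ => ∀ n ∈ x.2, E (x.1, n, true) := by
    refine S1.all_mem (α := List Bool × List ℕ) (p := fun x n => E (x.1, n, true))
      (f := fun x => x.2) (hE.comp ?_) Primrec.snd
    exact (Primrec.fst.comp Primrec.fst).pair (Primrec.snd.pair (Primrec.const true))
  obtain ⟨c, hc⟩ := Nat.Partrec.Code.exists_code.1 hS.re
  have key : ∀ s L, (∀ n ∈ L, E (pre X s, n, true)) ↔ ∃ r, acc c r (pre X s) L := by
    intro s L
    have h1 : (c.eval (encode (pre X s, L))).Dom ↔ ∀ n ∈ L, E (pre X s, n, true) := by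
      rw [hc]
      simp [Part.assert]
    rw [← h1]
    constructor
    · intro h
      obtain ⟨y, hy⟩ := Part.dom_iff_mem.1 h
      obtain ⟨k, hk⟩ := Nat.Partrec.Code.evaln_complete.1 hy
      exact ⟨k, Option.isSome_iff_exists.2 ⟨y, hk⟩⟩
    · rintro ⟨n, hn⟩
      obtain ⟨y, hy⟩ := Option.isSome_iff_exists.1 hn
      exact Part.dom_iff_mem.2 ⟨y, Nat.Partrec.Code.evaln_sound hy⟩
  refine ⟨c, {n | h n = true}, hinf, ⟨b, fun x hx y hy hxy => hb x y hx hy hxy⟩, ?_, ?_⟩
  · intro s r L ha n hn
    exact (eE n true).2 ⟨s, (key s L).2 ⟨r, ha⟩ n hn⟩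
  · intro L hL
    have h2 : ∃ s, ∀ n ∈ L, E (pre X s, n, true) := by
      induction L with
      | nil => exact ⟨0, by simp⟩
      | cons a L ih =>
        obtain ⟨s, hs⟩ := ih (fun n hn => hL n (List.mem_cons_of_mem _ hn))
        obtain ⟨s', hs'⟩ := (eE a true).1 (hL a List.mem_cons_self)
        refine ⟨max s s', fun n hn => ?_⟩
        rcases List.mem_cons.1 hn with rfl | hn
        · exact mE _ _ _ _ (pre_prefix X (le_max_right _ _)) hs'
        · exact mE _ _ _ _ (pre_prefix X (le_max_left _ _)) (hs n hn)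
    obtain ⟨s, hs⟩ := h2
    obtain ⟨r, hr⟩ := (key s L).1 hs
    exact ⟨s, r, hr⟩

end Pool.Agent.V11258.HP
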