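import Pool.Agent.V11258.HP.Good

set_option autoImplicit false

/-! A rotation good for most captured strings. -/

namespace Pool.Agent.V11258.HP

open Pool.Agent.Helper227 Encodable Finset
open Nat.Partrec (Code)

theorem valid.facts {M : ℕ} {L : List ℕ} (h : valid (640 * 2 ^ M) L) : L.toFinset.card = 640 ∧
    ∀ a ∈ L, ∀ b ∈ L, a < b → a + 640 * 2 ^ M ≤ b := by
  obtain ⟨h1, h2⟩ := h
  have hp : 0 < 640 * 2 ^ M := by positivity
  have hget : ∀ i, (hi : i < L.length) → L.getD i 0 = L[i] := by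
    intro i hi
    rw [List.getD_eq_getElem?_getD, List.getElem?_eq_getElem hi, Option.getD_some]
  have hnd : L.Nodup := by
    rw [List.nodup_iff_getElem?_ne_getElem?]
    intro i j hij hj hc
    have := h2 j (by omega) i hij
    rw [List.getD_eq_getElem?_getD, List.getD_eq_getElem?_getD, hc] at this
    omega
  refine ⟨by rw [List.toFinset_card_of_nodup hnd, h1], ?_⟩
  intro a ha b hb hab
  obtain ⟨i, hi, rfl⟩ := List.getElem_of_mem ha
  obtain ⟨j, hj, rfl⟩ := List.getElem_of_mem hb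
  rcases lt_trichotomy i j with h | h | h
  · have := h2 j (by omega) i h
    rwa [hget i hi, hget j hj] at this
  · subst h; omega
  · have := h2 i (by omega) j h
    rw [hget i hi, hget j hj] at this
    omega

/-- pigeonhole -/
theorem exists_rot {ι : Type*} (T : Finset ι) (L : ι → List ℕ) (A M : ℕ)
    (hv : ∀ τ ∈ T, valid (640 * 2 ^ M) (L τ)) :
    ∃ a m, Sub (a, m) (A, M) ∧ 9 * T.card ≤ 10 * {τ ∈ T | Q (L τ) a m}.card := by
  classical
  obtain ⟨r, hr⟩ : ∃ r, ∀ τ ∈ T, ∀ h ∈ L τ, 64 * (h + 1) ≤ 2 ^ (M + r) := by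
    refine ⟨T.sup fun τ => 64 * ((L τ).sum + 1), fun τ hτ h hh => ?_⟩
    have h1 : h ≤ (L τ).sum := List.single_le_sum (fun _ _ => Nat.zero_le _) h hh
    have h2 : 64 * ((L τ).sum + 1) ≤ T.sup fun τ => 64 * ((L τ).sum + 1) :=
      Finset.le_sup (f := fun τ => 64 * ((L τ).sum + 1)) hτ
    have h3 : (T.sup fun τ => 64 * ((L τ).sum + 1)) < 2 ^ (T.sup fun τ => 64 * ((L τ).sum + 1)) :=
      Nat.lt_two_pow_self
    calc 64 * (h + 1) ≤ 64 * ((L τ).sum + 1) := by omega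
      _ ≤ 2 ^ (T.sup fun τ => 64 * ((L τ).sum + 1)) := by omega
      _ ≤ _ := Nat.pow_le_pow_right (by norm_num) (by omega)
  have hcount : ∀ τ ∈ T, 10 * {b ∈ range (2 ^ r) | ¬ Q (L τ) (A * 2 ^ r + b) (M + r)}.card ≤ 2 ^ r :=
    fun τ hτ => count_bad (hv τ hτ).facts.1 (hv τ hτ).facts.2 (hr τ hτ)
  have hsum : ∑ b ∈ range (2 ^ r), 10 * {τ ∈ T | ¬ Q (L τ) (A * 2 ^ r + b) (M + r)}.card ≤
      ∑ b ∈ range (2 ^ r), T.card := by
    rw [← Finset.mul_sum]
    have e : ∑ b ∈ range (2 ^ r), {τ ∈ T | ¬ Q (L τ) (A * 2 ^ r + b) (M + r)}.card =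
        ∑ τ ∈ T, {b ∈ range (2 ^ r) | ¬ Q (L τ) (A * 2 ^ r + b) (M + r)}.card :=
      Finset.sum_card_bipartiteAbove_eq_sum_card_bipartiteBelow
        (r := fun b τ => ¬ Q (L τ) (A * 2 ^ r + b) (M + r))
    rw [e, Finset.mul_sum, Finset.sum_const, Finset.card_range, smul_eq_mul]
    refine (Finset.sum_le_sum hcount).trans ?_
    rw [Finset.sum_const, smul_eq_mul, mul_comm]
  obtain ⟨b, hb, hle⟩ := Finset.exists_le_of_sum_le (s := range (2 ^ r)) ⟨0, by simp⟩ hsum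
  rw [Finset.mem_range] at hb
  refine ⟨A * 2 ^ r + b, M + r, ⟨by simp, ?_⟩, ?_⟩
  · show (A * 2 ^ r + b) / 2 ^ (M + r - M) = A
    rw [Nat.add_sub_cancel_left, mul_comm, Nat.mul_add_div (by positivity), Nat.div_eq_of_lt hb,
      add_zero]
  · have h1 := Finset.card_filter_add_card_filter_not (s := T) (fun τ => Q (L τ) (A * 2 ^ r + b) (M + r))
    omega

theorem exists_good (i : ℕ) (J : ℕ × ℕ) (t : ℕ) (h : 9 * 2 ^ t ≤ 10 * 2 ^ (rs i).length *
    (cl (rs i) t (fun τ => cap (rc i) (640 * 2 ^ J.2) τ)).length) : ∃ n, good i J n = true := by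
  classical
  set T := (cl (rs i) t (fun τ => cap (rc i) (640 * 2 ^ J.2) τ)).toFinset with hT
  have hnd : (cl (rs i) t (fun τ => cap (rc i) (640 * 2 ^ J.2) τ)).Nodup := (nodup_allStr t).filter _
  have hTc : T.card = (cl (rs i) t (fun τ => cap (rc i) (640 * 2 ^ J.2) τ)).length :=
    List.toFinset_card_of_nodup hnd
  have hmem : ∀ τ, τ ∈ T ↔ τ.length = t ∧ (rs i = τ.take (rs i).length ∧
      cap (rc i) (640 * 2 ^ J.2) τ) := by
    intro τ
    simp [hT, cl, mem_allStr]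
  have hch : ∀ τ, ∃ L : List ℕ, τ ∈ T → ((∃ u < τ.length, L ∈ (decode (α := List ℕ) u).toList) ∧
      valid (640 * 2 ^ J.2) L ∧ ∃ n < τ.length + 1, acc (rc i) τ.length (τ.take n) L) := by
    intro τ
    by_cases hτ : τ ∈ T
    · obtain ⟨_, _, u, hu, L, hL, h1, h2⟩ := (hmem τ).1 hτ
      exact ⟨L, fun _ => ⟨⟨u, hu, hL⟩, h1, h2⟩⟩
    · exact ⟨[], fun h => absurd h hτ⟩
  choose L hL using hch
  obtain ⟨a, m, hs, hc⟩ := exists_rot T L J.1 J.2 (fun τ hτ => (hL τ hτ).2.1)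
  refine ⟨Nat.pair t (Nat.pair a m), ?_⟩
  unfold good
  rw [decide_eq_true_eq]
  refine ⟨?_, ?_⟩
  · unfold out
    rw [Nat.unpair_pair, Nat.unpair_pair]
    exact hs
  · have e1 : (Nat.pair t (Nat.pair a m)).unpair.1 = t := by rw [Nat.unpair_pair]
    have e2 : (out (Nat.pair t (Nat.pair a m))) = (a, m) := by
      unfold out; rw [Nat.unpair_pair, Nat.unpair_pair]
    rw [e1, e2]
    have hnd' : (cl (rs i) t (fun τ => capt (rc i) (640 * 2 ^ J.2) τ a m)).Nodup :=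
      (nodup_allStr t).filter _
    have hsub : {τ ∈ T | Q (L τ) a m} ⊆
        (cl (rs i) t (fun τ => capt (rc i) (640 * 2 ^ J.2) τ a m)).toFinset := by
      intro τ hτ
      rw [Finset.mem_filter] at hτ
      obtain ⟨hτ1, hτ2⟩ := hτ
      obtain ⟨⟨u, hu, hu2⟩, h1, h2⟩ := hL τ hτ1
      obtain ⟨k1, k2, _⟩ := (hmem τ).1 hτ1
      simp only [cl, List.mem_toFinset, List.mem_filter, mem_allStr, decide_eq_true_eq]
      exact ⟨k1, k2, u, hu, L τ, hu2, ⟨h1, hτ2⟩, h2⟩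
    have hcard := Finset.card_le_card hsub
    rw [List.toFinset_card_of_nodup hnd'] at hcard
    rw [← hTc] at h
    generalize (cl (rs i) t (fun τ => capt (rc i) (640 * 2 ^ J.2) τ a m)).length = c2 at hcard ⊢
    generalize ({τ ∈ T | Q (L τ) a m}).card = c1 at hcard hc
    generalize T.card = c0 at h hc
    generalize 2 ^ (rs i).length = p at h ⊢
    generalize 2 ^ t = q at h ⊢
    have h3 : p * (9 * c0) ≤ p * (10 * c1) := Nat.mul_le_mul_left _ hc
    have h4 : p * c1 ≤ p * c2 := Nat.mul_le_mul_left _ hcard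
    show 8 * q ≤ 10 * p * c2
    nlinarith

end Pool.Agent.V11258.HP
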