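import Mathlib

set_option autoImplicit false

/-! Exponential sums over a multiple of `a / 2 ^ m`. -/

namespace Pool.Agent.V11258.HP

open Finset

/-- unit exponential -/
noncomputable def ue (x : ℝ) : ℂ := Complex.exp (x * Complex.I)

theorem norm_ue (x : ℝ) : ‖ue x‖ = 1 := Complex.norm_exp_ofReal_mul_I x

theorem ue_add (x y : ℝ) : ue (x + y) = ue x * ue y := by
  unfold ue
  rw [← Complex.exp_add]
  congr 1
  push_cast
  ring

theorem conj_ue (x : ℝ) : (starRingEnd ℂ) (ue x) = ue (-x) := by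
  unfold ue
  rw [← Complex.exp_conj]
  congr 1
  simp

theorem ue_nat (b : ℕ) (x : ℝ) : ue (b * x) = ue x ^ b := by
  unfold ue
  rw [← Complex.exp_nat_mul]
  congr 1
  push_cast
  ring

theorem ue_re (x : ℝ) : (ue x).re = Real.cos x := Complex.exp_ofReal_mul_I_re x
theorem ue_im (x : ℝ) : (ue x).im = Real.sin x := Complex.exp_ofReal_mul_I_im x

theorem norm_ue_sub_one {x : ℝ} (hx : |x| ≤ Real.pi) : 2 * |x| / Real.pi ≤ ‖ue x - 1‖ := by
  have h1 : ‖ue x - 1‖ = ‖2 * Real.sin (x / 2)‖ := by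
    unfold ue
    rw [mul_comm, Complex.norm_exp_I_mul_ofReal_sub_one]
  rw [h1, Real.norm_eq_abs, abs_mul, abs_of_pos (by norm_num : (0:ℝ) < 2)]
  have h2 : |Real.sin (x / 2)| = Real.sin (|x| / 2) := by
    have h3 : 0 ≤ Real.sin (|x| / 2) :=
      Real.sin_nonneg_of_nonneg_of_le_pi (by positivity) (by linarith [Real.pi_pos])
    rcases abs_cases x with ⟨h, _⟩ | ⟨h, _⟩
    · rw [h] at h3 ⊢; exact abs_of_nonneg h3
    · rw [h] at h3 ⊢
      rw [neg_div, Real.sin_neg] at h3 ⊢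
      rw [abs_of_nonpos (by linarith)]
  rw [h2]
  have h4 := Real.mul_le_sin (x := |x| / 2) (by positivity) (by linarith)
  calc 2 * |x| / Real.pi = 2 * (2 / Real.pi * (|x| / 2)) := by ring
    _ ≤ _ := by linarith

theorem geom_bound {x : ℝ} (hx0 : 0 < |x|) (hx : |x| ≤ Real.pi) (N : ℕ) :
    ‖∑ b ∈ range N, ue (b * x)‖ ≤ Real.pi / |x| := by
  have h1 : (∑ b ∈ range N, ue (b * x)) * (ue x - 1) = ue x ^ N - 1 := by
    rw [← geom_sum_mul]
    simp only [ue_nat]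
  have h2 : ‖∑ b ∈ range N, ue (b * x)‖ * ‖ue x - 1‖ ≤ 2 := by
    rw [← norm_mul, h1]
    refine (norm_sub_le _ _).trans ?_
    rw [norm_pow, norm_ue]
    norm_num
  have h3 := norm_ue_sub_one hx
  have hpi := Real.pi_pos
  have h4 : ‖∑ b ∈ range N, ue (b * x)‖ * (2 * |x| / Real.pi) ≤ 2 :=
    (mul_le_mul_of_nonneg_left h3 (norm_nonneg _)).trans h2
  rw [le_div_iff₀ hx0]
  have h5 : ‖∑ b ∈ range N, ue (b * x)‖ * (2 * |x| / Real.pi) =
      2 * (‖∑ b ∈ range N, ue (b * x)‖ * |x|) / Real.pi := by ring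
  rw [h5, div_le_iff₀ hpi] at h4
  linarith

theorem second_moment (H : Finset ℕ) (x y : ℕ → ℝ) (N : ℕ) {B : ℝ} (hB0 : 0 ≤ B)
    (hB : ∀ h ∈ H, ∀ h' ∈ H, h ≠ h' → ‖∑ b ∈ range N, ue (b * (x h - x h'))‖ ≤ B) :
    ∑ b ∈ range N, ‖∑ h ∈ H, ue (y h + b * x h)‖ ^ 2 ≤ N * H.card + H.card ^ 2 * B := by
  have h1 : ((∑ b ∈ range N, ‖∑ h ∈ H, ue (y h + b * x h)‖ ^ 2 : ℝ) : ℂ) =
      ∑ h ∈ H, ∑ h' ∈ H, ue (y h - y h') * ∑ b ∈ range N, ue (b * (x h - x h')) := by
    push_cast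
    have : ∀ b ∈ range N, ((‖∑ h ∈ H, ue (y h + b * x h)‖ : ℂ)) ^ 2 =
        ∑ h ∈ H, ∑ h' ∈ H, ue (y h - y h') * ue (b * (x h - x h')) := by
      intro b _
      rw [← Complex.mul_conj', map_sum, Finset.sum_mul_sum]
      refine Finset.sum_congr rfl fun h _ => Finset.sum_congr rfl fun h' _ => ?_
      rw [conj_ue, ← ue_add, ← ue_add]
      congr 1
      ring
    rw [Finset.sum_congr rfl this, Finset.sum_comm]
    refine Finset.sum_congr rfl fun h _ => ?_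
    rw [Finset.sum_comm]
    refine Finset.sum_congr rfl fun h' _ => ?_
    rw [Finset.mul_sum]
  have h0 : 0 ≤ ∑ b ∈ range N, ‖∑ h ∈ H, ue (y h + b * x h)‖ ^ 2 :=
    Finset.sum_nonneg fun _ _ => by positivity
  have h2 : ∑ b ∈ range N, ‖∑ h ∈ H, ue (y h + b * x h)‖ ^ 2 =
      ‖((∑ b ∈ range N, ‖∑ h ∈ H, ue (y h + b * x h)‖ ^ 2 : ℝ) : ℂ)‖ := by
    rw [Complex.norm_real, Real.norm_of_nonneg h0]
  rw [h2, h1]
  refine (norm_sum_le _ _).trans ?_
  have h3 : ∀ h ∈ H, ‖∑ h' ∈ H, ue (y h - y h') * ∑ b ∈ range N, ue (b * (x h - x h'))‖ ≤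
      N + H.card * B := by
    intro h hh
    refine (norm_sum_le _ _).trans ?_
    rw [← Finset.add_sum_erase _ _ hh]
    refine add_le_add ?_ ?_
    · rw [norm_mul, norm_ue, one_mul]
      refine (norm_sum_le _ _).trans ?_
      simp [norm_ue]
    · have : ∀ h' ∈ H.erase h, ‖ue (y h - y h') * ∑ b ∈ range N, ue (b * (x h - x h'))‖ ≤ B := by
        intro h' hh'
        rw [norm_mul, norm_ue, one_mul]
        exact hB h hh h' (Finset.mem_of_mem_erase hh') (Finset.ne_of_mem_erase hh').symm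
      refine (Finset.sum_le_card_nsmul _ _ _ this).trans ?_
      rw [nsmul_eq_mul]
      refine mul_le_mul_of_nonneg_right ?_ hB0
      exact_mod_cast Finset.card_erase_le
  refine (Finset.sum_le_card_nsmul _ _ _ h3).trans ?_
  rw [nsmul_eq_mul]
  linarith

/-- the chosen rotation `a / 2 ^ m` makes some element of `L` land well inside the odd part -/
def Q (L : List ℕ) (a m : ℕ) : Prop :=
  ∀ z < 2 ^ (m + 1), ∃ h ∈ L, 2 ^ m ≤ (h * a + z) % 2 ^ (m + 1) ∧
    (h * a + z) % 2 ^ (m + 1) + h + 1 < 2 ^ (m + 1)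

instance (L : List ℕ) (a m : ℕ) : Decidable (Q L a m) := by
  unfold Q; infer_instance

/-- pointwise estimate -/
theorem pt_est {h a z m : ℕ} (hb : 64 * (h + 1) ≤ 2 ^ m)
    (hn : ¬ (2 ^ m ≤ (h * a + z) % 2 ^ (m + 1) ∧
      (h * a + z) % 2 ^ (m + 1) + h + 1 < 2 ^ (m + 1))) :
    -(1 / 16 : ℝ) ≤ Real.sin (Real.pi * (h * a + z) / 2 ^ m) := by
  set w := (h * a + z) % 2 ^ (m + 1) with hw
  have hP : (0 : ℝ) < 2 ^ m := by positivity
  have hwlt : w < 2 ^ (m + 1) := Nat.mod_lt _ (by positivity)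
  have e1 : h * a + z = w + 2 ^ (m + 1) * ((h * a + z) / 2 ^ (m + 1)) := (Nat.mod_add_div _ _).symm
  have e2 : Real.sin (Real.pi * (h * a + z) / 2 ^ m) = Real.sin (Real.pi * w / 2 ^ m) := by
    have : (h * a + z : ℝ) = w + 2 ^ (m + 1) * ((h * a + z) / 2 ^ (m + 1) : ℕ) := by
      exact_mod_cast e1
    rw [this]
    have h2 : Real.pi * (w + 2 ^ (m + 1) * ((h * a + z) / 2 ^ (m + 1) : ℕ)) / 2 ^ m =
        Real.pi * w / 2 ^ m + ((h * a + z) / 2 ^ (m + 1) : ℕ) * (2 * Real.pi) := by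
      rw [pow_succ]; field_simp
    rw [h2, Real.sin_add_nat_mul_two_pi]
  rw [e2]
  have hpi := Real.pi_pos
  by_cases hc : w < 2 ^ m
  · have h3 : (w : ℝ) ≤ 2 ^ m := by exact_mod_cast hc.le
    have : 0 ≤ Real.sin (Real.pi * w / 2 ^ m) := by
      refine Real.sin_nonneg_of_nonneg_of_le_pi (by positivity) ?_
      rw [div_le_iff₀ hP]
      exact mul_le_mul_of_nonneg_left h3 hpi.le
    linarith
  · have h4 : 2 ^ (m + 1) ≤ w + h + 1 := by
      by_contra hc2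
      exact hn ⟨by omega, by omega⟩
    have h5 : (2 : ℝ) ^ (m + 1) ≤ w + h + 1 := by exact_mod_cast h4
    have h6 : (64 : ℝ) * (h + 1) ≤ 2 ^ m := by exact_mod_cast hb
    have h7 : (w : ℝ) ≤ 2 ^ (m + 1) := by exact_mod_cast hwlt.le
    obtain ⟨u, hu⟩ : ∃ u : ℝ, u = 2 * Real.pi - Real.pi * w / 2 ^ m := ⟨_, rfl⟩
    have hu0 : 0 ≤ u := by
      rw [hu, sub_nonneg, div_le_iff₀ hP]
      calc Real.pi * w ≤ Real.pi * 2 ^ (m + 1) := mul_le_mul_of_nonneg_left h7 hpi.le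
        _ = 2 * Real.pi * 2 ^ m := by ring
    have hu1 : u ≤ 1 / 16 := by
      have h8 : u = Real.pi * (2 ^ (m + 1) - w) / 2 ^ m := by
        rw [hu, pow_succ]; field_simp
      rw [h8, div_le_iff₀ hP]
      have h9 : (2 : ℝ) ^ (m + 1) - w ≤ 2 ^ m / 64 := by linarith
      calc Real.pi * (2 ^ (m + 1) - w) ≤ 4 * (2 ^ m / 64) :=
            mul_le_mul Real.pi_le_four h9 (by linarith) (by norm_num)
        _ = 1 / 16 * 2 ^ m := by ring
    have h10 : Real.pi * w / 2 ^ m = 2 * Real.pi - u := by rw [hu]; ring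
    rw [h10, Real.sin_two_pi_sub]
    have := Real.sin_le hu0
    linarith

theorem not_Q_large {L : List ℕ} {a m : ℕ} (hcard : L.toFinset.card = 640)
    (hb : ∀ h ∈ L, 64 * (h + 1) ≤ 2 ^ m) (hQ : ¬ Q L a m) :
    (25600 : ℝ) ≤ ‖∑ h ∈ L.toFinset, ue (Real.pi * (h * a) / 2 ^ m)‖ ^ 2 +
      ‖∑ h ∈ L.toFinset, ue (2 * (Real.pi * (h * a) / 2 ^ m))‖ ^ 2 := by
  unfold Q at hQ
  push Not at hQ
  obtain ⟨z, hz, hn⟩ := hQ
  set H := L.toFinset with hH
  obtain ⟨s, hs⟩ : ∃ s : ℕ → ℝ, s = fun h : ℕ => Real.sin (Real.pi * (h * a + z) / 2 ^ m) := ⟨_, rfl⟩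
  have h1 : ∀ h ∈ H, -(1/8 : ℝ) ≤ s h - s h ^ 2 := by
    intro h hh
    have hL : h ∈ L := by simpa [hH] using hh
    have h2 : -(1 / 16 : ℝ) ≤ s h := by
      rw [hs]
      refine pt_est (hb h hL) ?_
      rintro ⟨h3, h4⟩
      exact absurd h4 (not_lt.2 (hn h hL h3))
    have h3 : s h ≤ 1 := by rw [hs]; exact Real.sin_le_one _
    nlinarith
  have h2 : -(80 : ℝ) ≤ ∑ h ∈ H, (s h - s h ^ 2) := by
    have := Finset.card_nsmul_le_sum H (fun h => s h - s h ^ 2) (-(1/8 : ℝ)) h1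
    rw [hcard, nsmul_eq_mul] at this
    push_cast at this
    linarith
  have h3 : ∑ h ∈ H, s h ^ 2 = 320 - (1/2) * ∑ h ∈ H, Real.cos (2 * (Real.pi * (h * a + z) / 2 ^ m)) := by
    have : ∀ h ∈ H, s h ^ 2 = 1/2 - (1/2) * Real.cos (2 * (Real.pi * (h * a + z) / 2 ^ m)) := by
      intro h _
      rw [hs]
      simp only
      rw [Real.sin_sq, Real.cos_sq]
      ring
    rw [Finset.sum_congr rfl this, Finset.sum_sub_distrib, Finset.sum_const, hcard, ← Finset.mul_sum]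
    norm_num
  rw [Finset.sum_sub_distrib, h3] at h2
  have h4 : ∑ h ∈ H, s h ≤ ‖∑ h ∈ H, ue (Real.pi * (h * a) / 2 ^ m)‖ := by
    have e : ∑ h ∈ H, s h = (ue (Real.pi * z / 2 ^ m) * ∑ h ∈ H, ue (Real.pi * (h * a) / 2 ^ m)).im := by
      rw [Finset.mul_sum, Complex.im_sum]
      refine Finset.sum_congr rfl fun h _ => ?_
      rw [← ue_add, ue_im, hs]
      simp only
      congr 1
      ring
    rw [e]
    refine (le_abs_self _).trans ((Complex.abs_im_le_norm _).trans ?_)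
    rw [norm_mul, norm_ue, one_mul]
  have h5 : ∑ h ∈ H, Real.cos (2 * (Real.pi * (h * a + z) / 2 ^ m)) ≤
      ‖∑ h ∈ H, ue (2 * (Real.pi * (h * a) / 2 ^ m))‖ := by
    have e : ∑ h ∈ H, Real.cos (2 * (Real.pi * (h * a + z) / 2 ^ m)) =
        (ue (2 * (Real.pi * z / 2 ^ m)) * ∑ h ∈ H, ue (2 * (Real.pi * (h * a) / 2 ^ m))).re := by
      rw [Finset.mul_sum, Complex.re_sum]
      refine Finset.sum_congr rfl fun h _ => ?_
      rw [← ue_add, ue_re]
      congr 1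
      ring
    rw [e]
    refine (le_abs_self _).trans ((Complex.abs_re_le_norm _).trans ?_)
    rw [norm_mul, norm_ue, one_mul]
  set u := ‖∑ h ∈ H, ue (Real.pi * (h * a) / 2 ^ m)‖
  set v := ‖∑ h ∈ H, ue (2 * (Real.pi * (h * a) / 2 ^ m))‖
  have hu : 0 ≤ u := norm_nonneg _
  have hv : 0 ≤ v := norm_nonneg _
  have h6 : 240 ≤ u + v / 2 := by linarith
  by_contra hc
  push Not at hc
  have h7 : u < 160 := by nlinarith
  have h8 : v < 160 := by nlinarith
  linarith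

/-- most rotations inside a given interval are good -/
theorem count_bad {L : List ℕ} {M r A : ℕ} (hcard : L.toFinset.card = 640)
    (hD : ∀ h ∈ L, ∀ h' ∈ L, h < h' → h + 640 * 2 ^ M ≤ h')
    (hb : ∀ h ∈ L, 64 * (h + 1) ≤ 2 ^ (M + r)) :
    10 * {b ∈ range (2 ^ r) | ¬ Q L (A * 2 ^ r + b) (M + r)}.card ≤ 2 ^ r := by
  classical
  set H := L.toFinset with hH
  set m := M + r with hm
  have hP : (0 : ℝ) < 2 ^ m := by positivity
  have hpi := Real.pi_pos
  -- moments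
  have hmom : ∀ j : ℝ, 1 ≤ j → j ≤ 2 →
      ∑ b ∈ range (2 ^ r), ‖∑ h ∈ H, ue (j * (Real.pi * (h * ((A * 2 ^ r + b : ℕ) : ℝ)) / 2 ^ m))‖ ^ 2
        ≤ 1280 * 2 ^ r := by
    intro j hj1 hj2
    have hdiff : ∀ h ∈ H, ∀ h' ∈ H, h ≠ h' → (640 * 2 ^ M : ℝ) ≤ |(h : ℝ) - h'| ∧
        |(h : ℝ) - h'| ≤ 2 ^ m / 64 := by
      intro h hh h' hh' hne
      have hL : h ∈ L := by simpa [hH] using hh
      have hL' : h' ∈ L := by simpa [hH] using hh'
      have b1 : (64 * (h + 1) : ℝ) ≤ 2 ^ m := by exact_mod_cast hb h hL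
      have b2 : (64 * (h' + 1) : ℝ) ≤ 2 ^ m := by exact_mod_cast hb h' hL'
      have c1 : (0 : ℝ) ≤ h := by positivity
      have c2 : (0 : ℝ) ≤ h' := by positivity
      rcases lt_or_gt_of_ne hne with hlt | hlt
      · have := hD h hL h' hL' hlt
        have h3 : (h + 640 * 2 ^ M : ℝ) ≤ h' := by exact_mod_cast this
        have h4 : (0 : ℝ) ≤ 640 * 2 ^ M := by positivity
        rw [abs_sub_comm, abs_of_nonneg (by linarith)]
        constructor <;> linarith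
      · have := hD h' hL' h hL hlt
        have h3 : (h' + 640 * 2 ^ M : ℝ) ≤ h := by exact_mod_cast this
        have h4 : (0 : ℝ) ≤ 640 * 2 ^ M := by positivity
        rw [abs_of_nonneg (by linarith)]
        constructor <;> linarith
    have key := second_moment H (fun h => j * (Real.pi * h / 2 ^ m))
      (fun h => j * (Real.pi * (h * ((A * 2 ^ r : ℕ) : ℝ)) / 2 ^ m)) (2 ^ r)
      (B := 2 ^ r / 640) (by positivity) ?_
    · rw [hcard] at key
      push_cast at key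
      have h5 : ∀ b ∈ range (2 ^ r),
          ‖∑ h ∈ H, ue (j * (Real.pi * (h * ((A * 2 ^ r + b : ℕ) : ℝ)) / 2 ^ m))‖ ^ 2 =
          ‖∑ h ∈ H, ue (j * (Real.pi * (h * (A * 2 ^ r)) / 2 ^ m) + b * (j * (Real.pi * h / 2 ^ m)))‖ ^ 2 := by
        intro b _
        congr 2
        refine Finset.sum_congr rfl fun h _ => ?_
        congr 1
        push_cast
        ring
      rw [Finset.sum_congr rfl h5]
      refine key.trans (le_of_eq ?_)
      ring
    · intro h hh h' hh' hne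
      obtain ⟨d1, d2⟩ := hdiff h hh h' hh' hne
      have h640 : (0 : ℝ) < 640 * 2 ^ M := by positivity
      have hpos : 0 < |(h : ℝ) - h'| := lt_of_lt_of_le h640 d1
      have e : |j * (Real.pi * h / 2 ^ m) - j * (Real.pi * h' / 2 ^ m)| =
          j * Real.pi * |(h : ℝ) - h'| / 2 ^ m := by
        have : j * (Real.pi * h / 2 ^ m) - j * (Real.pi * h' / 2 ^ m) =
          (j * Real.pi / 2 ^ m) * ((h : ℝ) - h') := by ring
        rw [this, abs_mul, abs_of_pos (by positivity)]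
        ring
      have hg := geom_bound (x := j * (Real.pi * h / 2 ^ m) - j * (Real.pi * h' / 2 ^ m))
        (by rw [e]; positivity) (by
          rw [e, div_le_iff₀ hP]
          calc j * Real.pi * |(h : ℝ) - h'| ≤ 2 * Real.pi * (2 ^ m / 64) := by
                refine mul_le_mul (mul_le_mul_of_nonneg_right hj2 hpi.le) d2 (abs_nonneg _)
                  (by positivity)
            _ ≤ Real.pi * 2 ^ m := by nlinarith [mul_pos hpi hP]) (2 ^ r)
      refine hg.trans ?_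
      rw [e, div_le_iff₀ (by positivity)]
      have h7 : (2 : ℝ) ^ m = 2 ^ M * 2 ^ r := by rw [hm, pow_add]
      rw [mul_div_assoc', le_div_iff₀ hP]
      rw [h7]
      have h8 : (640 * 2 ^ M : ℝ) ≤ j * |(h : ℝ) - h'| := by
        nlinarith [abs_nonneg ((h : ℝ) - h')]
      have h9 : (0 : ℝ) < 2 ^ r := by positivity
      calc Real.pi * (2 ^ M * 2 ^ r) = 2 ^ r / 640 * (Real.pi * (640 * 2 ^ M)) := by ring
        _ ≤ 2 ^ r / 640 * (Real.pi * (j * |(h : ℝ) - h'|)) := by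
            refine mul_le_mul_of_nonneg_left (mul_le_mul_of_nonneg_left h8 hpi.le) (by positivity)
        _ = _ := by ring
  have m1 := hmom 1 le_rfl (by norm_num)
  have m2 := hmom 2 (by norm_num) le_rfl
  simp only [one_mul] at m1
  have h3 : (({b ∈ range (2 ^ r) | ¬ Q L (A * 2 ^ r + b) m}.card : ℕ) : ℝ) * 25600 ≤
      ∑ b ∈ range (2 ^ r), (‖∑ h ∈ H, ue (Real.pi * (h * ((A * 2 ^ r + b : ℕ) : ℝ)) / 2 ^ m)‖ ^ 2 +
        ‖∑ h ∈ H, ue (2 * (Real.pi * (h * ((A * 2 ^ r + b : ℕ) : ℝ)) / 2 ^ m))‖ ^ 2) := by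
    rw [← nsmul_eq_mul]
    refine (Finset.card_nsmul_le_sum _ _ _ ?_).trans
      (Finset.sum_le_sum_of_subset_of_nonneg (Finset.filter_subset _ _) ?_)
    · intro b hb'
      rw [Finset.mem_filter] at hb'
      exact not_Q_large hcard hb hb'.2
    · intros; positivity
  rw [Finset.sum_add_distrib] at h3
  have h4 : (10 * ({b ∈ range (2 ^ r) | ¬ Q L (A * 2 ^ r + b) m}.card : ℕ) : ℝ) ≤ 2 ^ r := by
    linarith
  exact_mod_cast h4

end Pool.Agent.V11258.HP
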