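import Pool.Agent.V11258.HP.Color
import Pool.Agent.Helper227.Sacks

set_option autoImplicit false

/-! The requirements. -/

namespace Pool.Agent.V11258.HP

open Pool.Agent.Helper227 Encodable
open Nat.Partrec (Code)

/-- the code `c` accepts -/
def acc (c : Code) (r : ℕ) (τ : List Bool) (L : List ℕ) : Prop :=
  (c.evaln r (encode (τ, L))).isSome = true

instance (c : Code) (r : ℕ) (τ : List Bool) (L : List ℕ) : Decidable (acc c r τ L) := by
  unfold acc; infer_instance

theorem acc_mono {c : Code} {r r' : ℕ} (h : r ≤ r') {τ : List Bool} {L : List ℕ}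
    (ha : acc c r τ L) : acc c r' τ L := by
  unfold acc at *
  rw [Option.isSome_iff_exists] at ha ⊢
  obtain ⟨y, hy⟩ := ha
  exact ⟨y, Nat.Partrec.Code.evaln_mono h hy⟩

/-- lists of 640 numbers with gaps at least `D` -/
def valid (D : ℕ) (L : List ℕ) : Prop :=
  L.length = 640 ∧ ∀ i < 640, ∀ j < i, L.getD j 0 + D ≤ L.getD i 0

instance (D : ℕ) (L : List ℕ) : Decidable (valid D L) := by
  unfold valid; infer_instance

/-- `τ` provides a valid list -/
def cap (c : Code) (D : ℕ) (τ : List Bool) : Prop :=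
  ∃ u < τ.length, ∃ L ∈ (decode (α := List ℕ) u).toList, valid D L ∧
    ∃ n < τ.length + 1, acc c τ.length (τ.take n) L

/-- `τ` provides a valid list good for the rotation -/
def capt (c : Code) (D : ℕ) (τ : List Bool) (a m : ℕ) : Prop :=
  ∃ u < τ.length, ∃ L ∈ (decode (α := List ℕ) u).toList, (valid D L ∧ Q L a m) ∧
    ∃ n < τ.length + 1, acc c τ.length (τ.take n) L

instance (c : Code) (D : ℕ) (τ : List Bool) : Decidable (cap c D τ) := by
  unfold cap; infer_instance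
instance (c : Code) (D : ℕ) (τ : List Bool) (a m : ℕ) : Decidable (capt c D τ a m) := by
  unfold capt; infer_instance

/-- the strings extending `σ` with a property -/
def cl (σ : List Bool) (t : ℕ) (P : List Bool → Prop) [DecidablePred P] : List (List Bool) :=
  (allStr t).filter fun τ => σ = τ.take σ.length ∧ P τ

/-- the code part of a requirement -/
def rc (i : ℕ) : Code := Denumerable.ofNat Code i.unpair.1
/-- the string part of a requirement -/
def rs (i : ℕ) : List Bool := (decode (α := List Bool) i.unpair.2).getD []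

/-- output interval -/
def out (n : ℕ) : ℕ × ℕ := n.unpair.2.unpair

/-- the property to be searched for -/
def Good (i : ℕ) (J : ℕ × ℕ) (n : ℕ) : Prop :=
  (J.2 ≤ (out n).2 ∧ (out n).1 / 2 ^ ((out n).2 - J.2) = J.1) ∧
    8 * 2 ^ n.unpair.1 ≤ 10 * 2 ^ (rs i).length *
      (cl (rs i) n.unpair.1 (fun τ => capt (rc i) (640 * 2 ^ J.2) τ (out n).1 (out n).2)).length

instance (i : ℕ) (J : ℕ × ℕ) (n : ℕ) : Decidable (Good i J n) := by
  unfold Good; infer_instance

/-- as a Boolean function -/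
def good (i : ℕ) (J : ℕ × ℕ) (n : ℕ) : Bool := decide (Good i J n)

theorem good_sub (i : ℕ) (J : ℕ × ℕ) (n : ℕ) (h : good i J n = true) : Sub (out n) J := by
  unfold good at h
  rw [decide_eq_true_eq] at h
  exact h.1

section comp

theorem pr_pow2 {α : Type*} [Primcodable α] {f : α → ℕ} (hf : Primrec f) :
    Primrec fun x => 2 ^ f x := (primrec_pow.comp (Primrec.const 2) hf)

theorem pr_Q : PrimrecPred fun x : List ℕ × ℕ × ℕ => Q x.1 x.2.1 x.2.2 := by
  unfold Q
  refine PP.all_lt (α := List ℕ × ℕ × ℕ) (f := fun x => 2 ^ (x.2.2 + 1))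
    (p := fun x z => ∃ h ∈ x.1, 2 ^ x.2.2 ≤ (h * x.2.1 + z) % 2 ^ (x.2.2 + 1) ∧
      (h * x.2.1 + z) % 2 ^ (x.2.2 + 1) + h + 1 < 2 ^ (x.2.2 + 1)) ?_
    (pr_pow2 (Primrec.succ.comp (Primrec.snd.comp Primrec.snd)))
  refine PP.ex_mem (α := (List ℕ × ℕ × ℕ) × ℕ) (f := fun x => x.1.1)
    (p := fun x h => 2 ^ x.1.2.2 ≤ (h * x.1.2.1 + x.2) % 2 ^ (x.1.2.2 + 1) ∧
      (h * x.1.2.1 + x.2) % 2 ^ (x.1.2.2 + 1) + h + 1 < 2 ^ (x.1.2.2 + 1)) ?_
    (Primrec.fst.comp Primrec.fst)
  have hm : Primrec fun y : ((List ℕ × ℕ × ℕ) × ℕ) × ℕ => y.1.1.2.2 :=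
    Primrec.snd.comp (Primrec.snd.comp (Primrec.fst.comp Primrec.fst))
  have ha : Primrec fun y : ((List ℕ × ℕ × ℕ) × ℕ) × ℕ => y.1.1.2.1 :=
    Primrec.fst.comp (Primrec.snd.comp (Primrec.fst.comp Primrec.fst))
  have hz : Primrec fun y : ((List ℕ × ℕ × ℕ) × ℕ) × ℕ => y.1.2 :=
    Primrec.snd.comp Primrec.fst
  have h1 : Primrec fun y : ((List ℕ × ℕ × ℕ) × ℕ) × ℕ => 2 ^ (y.1.1.2.2 + 1) :=
    pr_pow2 (Primrec.succ.comp hm)
  have h2 : Primrec fun y : ((List ℕ × ℕ × ℕ) × ℕ) × ℕ =>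
      (y.2 * y.1.1.2.1 + y.1.2) % 2 ^ (y.1.1.2.2 + 1) :=
    Primrec.nat_mod.comp (Primrec.nat_add.comp (Primrec.nat_mul.comp Primrec.snd ha) hz) h1
  refine PrimrecPred.and ?_ ?_
  · exact Primrec.nat_le.comp (pr_pow2 hm) h2
  · exact Primrec.nat_lt.comp (Primrec.succ.comp (Primrec.nat_add.comp h2 Primrec.snd)) h1

theorem pr_valid : PrimrecPred fun x : ℕ × List ℕ => valid x.1 x.2 := by
  unfold valid
  refine PrimrecPred.and (Primrec.eq.comp (Primrec.list_length.comp Primrec.snd)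
    (Primrec.const 640)) ?_
  refine PP.all_lt (α := ℕ × List ℕ) (f := fun _ => 640)
    (p := fun x i => ∀ j < i, x.2.getD j 0 + x.1 ≤ x.2.getD i 0) ?_ (Primrec.const _)
  refine PP.all_lt (α := (ℕ × List ℕ) × ℕ) (f := fun x => x.2)
    (p := fun x j => x.1.2.getD j 0 + x.1.1 ≤ x.1.2.getD x.2 0) ?_ Primrec.snd
  refine Primrec.nat_le.comp (Primrec.nat_add.comp ?_ ?_) ?_
  · exact (Primrec.list_getD 0).comp (Primrec.snd.comp (Primrec.fst.comp Primrec.fst)) Primrec.snd
  · exact Primrec.fst.comp (Primrec.fst.comp Primrec.fst)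
  · exact (Primrec.list_getD 0).comp (Primrec.snd.comp (Primrec.fst.comp Primrec.fst))
      (Primrec.snd.comp Primrec.fst)

theorem pr_acc : PrimrecPred fun x : (Code × ℕ) × List Bool × List ℕ =>
    acc x.1.1 x.1.2 x.2.1 x.2.2 := by
  unfold acc
  refine Primrec.primrecPred (p := fun x : (Code × ℕ) × List Bool × List ℕ =>
    ((x.1.1.evaln x.1.2 (encode (x.2.1, x.2.2))).isSome : Prop)) ?_
  have : Primrec fun x : (Code × ℕ) × List Bool × List ℕ =>
      (x.1.1.evaln x.1.2 (encode (x.2.1, x.2.2))).isSome :=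
    Primrec.option_isSome.comp (Nat.Partrec.Code.primrec_evaln.comp
      (((Primrec.snd.comp Primrec.fst).pair (Primrec.fst.comp Primrec.fst)).pair
        (Primrec.encode.comp Primrec.snd)))
  simpa using this

theorem pr_capt : PrimrecPred fun x : (Code × ℕ) × List Bool × ℕ × ℕ =>
    capt x.1.1 x.1.2 x.2.1 x.2.2.1 x.2.2.2 := by
  unfold capt
  refine PP.ex_lt (α := (Code × ℕ) × List Bool × ℕ × ℕ) (f := fun x => x.2.1.length)
    (p := fun x u => ∃ L ∈ (decode (α := List ℕ) u).toList, (valid x.1.2 L ∧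
      Q L x.2.2.1 x.2.2.2) ∧ ∃ n < x.2.1.length + 1, acc x.1.1 x.2.1.length (x.2.1.take n) L) ?_
    (Primrec.list_length.comp (Primrec.fst.comp Primrec.snd))
  refine PP.ex_mem (α := ((Code × ℕ) × List Bool × ℕ × ℕ) × ℕ)
    (f := fun x => (decode (α := List ℕ) x.2).toList)
    (p := fun x L => (valid x.1.1.2 L ∧
      Q L x.1.2.2.1 x.1.2.2.2) ∧ ∃ n < x.1.2.1.length + 1,
        acc x.1.1.1 x.1.2.1.length (x.1.2.1.take n) L) ?_
    (Primrec.optionToList.comp (Primrec.decode.comp Primrec.snd))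
  have hx : Primrec fun y : (((Code × ℕ) × List Bool × ℕ × ℕ) × ℕ) × List ℕ => y.1.1 :=
    Primrec.fst.comp Primrec.fst
  have hτ : Primrec fun y : (((Code × ℕ) × List Bool × ℕ × ℕ) × ℕ) × List ℕ => y.1.1.2.1 :=
    Primrec.fst.comp (Primrec.snd.comp hx)
  refine PrimrecPred.and (PrimrecPred.and ?_ ?_) ?_
  · exact pr_valid.comp (Primrec.pair (Primrec.snd.comp (Primrec.fst.comp hx)) Primrec.snd)
  · exact pr_Q.comp (Primrec.pair Primrec.snd (Primrec.snd.comp (Primrec.snd.comp hx)))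
  · refine PP.ex_lt (α := (((Code × ℕ) × List Bool × ℕ × ℕ) × ℕ) × List ℕ)
      (f := fun y => y.1.1.2.1.length + 1)
      (p := fun y n => acc y.1.1.1.1 y.1.1.2.1.length (y.1.1.2.1.take n) y.2) ?_
      (Primrec.succ.comp (Primrec.list_length.comp hτ))
    refine pr_acc.comp (Primrec.pair (Primrec.pair ?_ ?_) (Primrec.pair ?_ ?_))
    · exact Primrec.fst.comp (Primrec.fst.comp (hx.comp Primrec.fst))
    · exact Primrec.list_length.comp (hτ.comp Primrec.fst)
    · exact Primrec.list_take.comp Primrec.snd (hτ.comp Primrec.fst)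
    · exact Primrec.snd.comp Primrec.fst

theorem pr_out : Primrec out := Primrec.unpair.comp (Primrec.snd.comp Primrec.unpair)
theorem pr_rc : Primrec rc := (Primrec.ofNat Code).comp (Primrec.fst.comp Primrec.unpair)
theorem pr_rs : Primrec rs := Primrec.option_getD.comp
  (Primrec.decode.comp (Primrec.snd.comp Primrec.unpair)) (Primrec.const [])

theorem pr_Good : PrimrecPred fun x : (ℕ × (ℕ × ℕ)) × ℕ => Good x.1.1 x.1.2 x.2 := by
  unfold Good
  have hi : Primrec fun x : (ℕ × (ℕ × ℕ)) × ℕ => x.1.1 := Primrec.fst.comp Primrec.fst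
  have hA : Primrec fun x : (ℕ × (ℕ × ℕ)) × ℕ => x.1.2.1 :=
    Primrec.fst.comp (Primrec.snd.comp Primrec.fst)
  have hM : Primrec fun x : (ℕ × (ℕ × ℕ)) × ℕ => x.1.2.2 :=
    Primrec.snd.comp (Primrec.snd.comp Primrec.fst)
  have ha : Primrec fun x : (ℕ × (ℕ × ℕ)) × ℕ => (out x.2).1 :=
    Primrec.fst.comp (pr_out.comp Primrec.snd)
  have hm : Primrec fun x : (ℕ × (ℕ × ℕ)) × ℕ => (out x.2).2 :=
    Primrec.snd.comp (pr_out.comp Primrec.snd)
  have ht : Primrec fun x : (ℕ × (ℕ × ℕ)) × ℕ => x.2.unpair.1 :=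
    Primrec.fst.comp (Primrec.unpair.comp Primrec.snd)
  have hs : Primrec fun x : (ℕ × (ℕ × ℕ)) × ℕ => rs x.1.1 := pr_rs.comp hi
  have hF : PrimrecRel (fun (τ : List Bool) (x : (ℕ × (ℕ × ℕ)) × ℕ) =>
      rs x.1.1 = τ.take (rs x.1.1).length ∧
        capt (rc x.1.1) (640 * 2 ^ x.1.2.2) τ (out x.2).1 (out x.2).2) := by
    refine PrimrecPred.and ?_ ?_
    · exact Primrec.eq.comp (hs.comp Primrec.snd) (Primrec.list_take.comp
        (Primrec.list_length.comp (hs.comp Primrec.snd)) Primrec.fst)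
    · refine pr_capt.comp (Primrec.pair (Primrec.pair ?_ ?_) (Primrec.pair ?_ (Primrec.pair ?_ ?_)))
      · exact pr_rc.comp (hi.comp Primrec.snd)
      · exact Primrec.nat_mul.comp (Primrec.const 640) (pr_pow2 (hM.comp Primrec.snd))
      · exact Primrec.fst
      · exact ha.comp Primrec.snd
      · exact hm.comp Primrec.snd
  have h2 := hF.listFilter
  refine PrimrecPred.and (PrimrecPred.and ?_ ?_) ?_
  · exact Primrec.nat_le.comp hM hm
  · exact Primrec.eq.comp (Primrec.nat_div.comp ha (pr_pow2 (Primrec.nat_sub.comp hm hM))) hA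
  · refine Primrec.nat_le.comp (Primrec.nat_mul.comp (Primrec.const 8) (pr_pow2 ht))
      (Primrec.nat_mul.comp (Primrec.nat_mul.comp (Primrec.const 10)
        (pr_pow2 (Primrec.list_length.comp hs))) ?_)
    refine (Primrec.list_length.comp (h2.comp (primrec_allStr.comp ht) Primrec.id)).of_eq fun x => ?_
    rfl

theorem comp_good : Computable fun x : (ℕ × (ℕ × ℕ)) × ℕ => good x.1.1 x.1.2 x.2 := by
  have h := pr_Good.decide.to_comp
  refine h.of_eq fun x => ?_
  rfl

end comp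

/-- the colouring -/
def cc : ℕ → Bool := col good out

theorem comp_cc : Computable cc := comp_col comp_good pr_out.to_comp

end Pool.Agent.V11258.HP
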