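import Pool.Agent.V11258.HP.Exist

set_option autoImplicit false

/-! Almost every set computes no solution. -/

namespace Pool.Agent.V11258.HP

open Pool.Agent.Helper227 Encodable MeasureTheory
open scoped ENNReal
open Nat.Partrec (Code)

/-- density lemma, with factor 9/10 and for arbitrary sets -/
theorem dense_cyl {S : Set (ℕ → Bool)} (hpos : lam S ≠ 0) :
    ∃ σ, 9 * lam (cyl σ) < 10 * lam (S ∩ cyl σ) := by
  by_contra hc
  push Not at hc
  have hfin : lam S ≠ ⊤ := measure_ne_top _ _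
  have h1 : lam S < lam S + lam S / 9 := by
    refine ENNReal.lt_add_right hfin ?_
    exact (ENNReal.div_pos hpos (by norm_num)).ne'
  obtain ⟨G, hSG, hGo, hG⟩ := Set.exists_isOpen_lt_of_lt S _ h1
  have hG' : 9 * lam G < 10 * lam S := by
    have h2 : 9 * lam G < 9 * (lam S + lam S / 9) :=
      (ENNReal.mul_lt_mul_iff_right (by norm_num) (by norm_num)).2 hG
    refine h2.trans_le (le_of_eq ?_)
    rw [mul_add, ENNReal.mul_div_cancel (by norm_num) (by norm_num)]
    ring
  -- minimal strings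
  set M : Set (List Bool) := {σ | cyl σ ⊆ G ∧ ∀ n < σ.length, ¬ cyl (σ.take n) ⊆ G} with hM
  have hGU : G = ⋃ σ ∈ M, cyl σ := by
    classical
    ext X
    simp only [Set.mem_iUnion, exists_prop]
    constructor
    · intro hX
      have hex := exists_cyl_subset hGo hX
      refine ⟨pre X (Nat.find hex), ⟨Nat.find_spec hex, fun n hn => ?_⟩, mem_cyl_pre _ _⟩
      rw [length_pre] at hn
      rw [take_pre _ _ _ (le_of_lt hn)]
      exact Nat.find_min hex hn
    · rintro ⟨σ, h1, h2⟩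
      exact h1.1 h2
  have hdisj : M.PairwiseDisjoint cyl := by
    intro σ hσ τ hτ hne
    simp only [Function.onFun]
    rw [Set.disjoint_left]
    intro X h1 h2
    rw [mem_cyl_iff] at h1 h2
    rcases lt_trichotomy σ.length τ.length with h | h | h
    · refine hτ.2 _ h ?_
      rw [← h2, take_pre _ _ _ (le_of_lt h), h1]
      exact hσ.1
    · apply hne
      rw [← h1, ← h2, h]
    · refine hσ.2 _ h ?_
      rw [← h1, take_pre _ _ _ (le_of_lt h), h2]
      exact hτ.1
  have hGm : lam G = ∑' σ : M, lam (cyl σ) := by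
    rw [hGU]
    exact measure_biUnion M.to_countable hdisj (fun σ _ => measurableSet_cyl σ)
  have hSm : lam S ≤ ∑' σ : M, lam (S ∩ cyl σ) := by
    have : S ⊆ ⋃ σ : M, (S ∩ cyl σ) := by
      intro X hX
      have := hSG hX
      rw [hGU] at this
      simp only [Set.mem_iUnion, exists_prop] at this
      obtain ⟨σ, h1, h2⟩ := this
      exact Set.mem_iUnion.2 ⟨⟨σ, h1⟩, hX, h2⟩
    exact (measure_mono this).trans (measure_iUnion_le _)
  have : 10 * lam S ≤ 9 * lam G := by
    calc 10 * lam S ≤ 10 * ∑' σ : M, lam (S ∩ cyl σ) := by gcongr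
      _ = ∑' σ : M, 10 * lam (S ∩ cyl σ) := ENNReal.tsum_mul_left.symm
      _ ≤ ∑' σ : M, 9 * lam (cyl σ) := ENNReal.tsum_le_tsum fun σ => hc σ
      _ = 9 * lam G := by rw [hGm, ENNReal.tsum_mul_left]
  exact absurd (lt_of_lt_of_le hG' this) (lt_irrefl _)

/-- measure of the clopen set coded by a list -/
theorem lam_cl (σ : List Bool) (t : ℕ) (P : List Bool → Prop) [DecidablePred P] :
    lam {X | pre X t ∈ cl σ t P} = (cl σ t P).length * (1 / 2) ^ t := by
  classical
  have h := lam_finset (cl σ t P).toFinset t (by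
    intro τ hτ
    simp only [cl, List.mem_toFinset, List.mem_filter, mem_allStr] at hτ
    exact hτ.1)
  have hnd : (cl σ t P).Nodup := (nodup_allStr t).filter _
  rw [List.toFinset_card_of_nodup hnd] at h
  rw [← h]
  congr 1
  ext X
  simp

theorem mem_cl {X : ℕ → Bool} {σ : List Bool} {t : ℕ} {P : List Bool → Prop} [DecidablePred P] :
    pre X t ∈ cl σ t P ↔ (σ.length ≤ t ∧ X ∈ cyl σ) ∧ P (pre X t) := by
  simp only [cl, List.mem_filter, mem_allStr, length_pre, true_and, decide_eq_true_eq]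
  refine and_congr_left fun _ => ?_
  constructor
  · intro h
    have hl : σ.length ≤ t := by
      have := congrArg List.length h
      rw [List.length_take, length_pre] at this
      omega
    refine ⟨hl, ?_⟩
    rw [take_pre _ _ _ hl] at h
    rw [mem_cyl_iff]; exact h.symm
  · rintro ⟨h1, h2⟩
    rw [take_pre _ _ _ h1]
    rw [mem_cyl_iff] at h2; exact h2.symm

theorem real_pow_half (n : ℕ) : ((1 / 2 : ℝ≥0∞) ^ n).toReal = (1 / 2 : ℝ) ^ n := by simp

/-- the sets for which the `c`-th operator enumerates a solution -/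
def SS (c : Code) (f : ℕ → Bool) : Set (ℕ → Bool) :=
  {X | ∃ H : Set ℕ, H.Infinite ∧ (∃ b, ∀ x ∈ H, ∀ y ∈ H, x ≠ y → f (x + y) = b) ∧
    (∀ s r L, acc c r (pre X s) L → ∀ h ∈ L, h ∈ H) ∧
    ∀ L : List ℕ, (∀ h ∈ L, h ∈ H) → ∃ s r, acc c r (pre X s) L}

theorem exists_valid {H : Set ℕ} (hH : H.Infinite) (D : ℕ) : ∃ L, valid D L ∧ ∀ h ∈ L, h ∈ H := by
  have hex : ∀ n, ∃ h ∈ H, n ≤ h := fun n => by
    obtain ⟨h, h1, h2⟩ := hH.exists_gt n
    exact ⟨h, h1, h2.le⟩
  choose g hg1 hg2 using hex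
  obtain ⟨s, hs⟩ : ∃ s : ℕ → ℕ, ∀ n, s (n + 1) = g (s n + D) ∧ s 0 = g 0 :=
    ⟨fun n => Nat.rec (g 0) (fun _ ih => g (ih + D)) n, fun n => ⟨rfl, rfl⟩⟩
  have hsH : ∀ n, s n ∈ H := by
    intro n
    cases n with
    | zero => rw [(hs 0).2]; exact hg1 _
    | succ n => rw [(hs n).1]; exact hg1 _
  have hstep : ∀ n, s n + D ≤ s (n + 1) := fun n => by rw [(hs n).1]; exact hg2 _
  have hmono : ∀ i j, j < i → s j + D ≤ s i := by
    intro i j hij
    obtain ⟨d, rfl⟩ := Nat.exists_eq_add_of_lt hij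
    clear hij
    induction d with
    | zero => exact hstep j
    | succ d ih =>
      have := hstep (j + d + 1)
      show s j + D ≤ s (j + d + 1 + 1)
      omega
  refine ⟨(List.range 640).map s, ⟨by simp, ?_⟩, ?_⟩
  · intro i hi j hj
    have e : ∀ k < 640, ((List.range 640).map s).getD k 0 = s k := by
      intro k hk
      rw [List.getD_eq_getElem?_getD]
      simp [hk]
    rw [e i hi, e j (by omega)]
    exact hmono i j hj
  · intro h hh
    rw [List.mem_map] at hh
    obtain ⟨k, _, rfl⟩ := hh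
    exact hsH k

theorem SS_null (c : Code) : lam (SS c cc) = 0 := by
  by_contra hpos
  obtain ⟨σ, hσ⟩ := dense_cyl hpos
  -- the requirement
  set i := Nat.pair (encode c) (encode σ) with hi
  have hrc : rc i = c := by
    rw [rc, hi, Nat.unpair_pair, Denumerable.ofNat_encode]
  have hrs : rs i = σ := by
    rw [rs, hi, Nat.unpair_pair, encodek]; rfl
  set J := JL good out i with hJ
  -- a good stage exists
  have hgood : ∃ n, good i J n = true := by
    have hcov : SS c cc ∩ cyl σ ⊆ ⋃ t, {X | pre X t ∈ cl σ t (fun τ => cap c (640 * 2 ^ J.2) τ)} := by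
      rintro X ⟨⟨H, hH, -, -, h2⟩, hX⟩
      obtain ⟨L, hL1, hL2⟩ := exists_valid hH (640 * 2 ^ J.2)
      obtain ⟨s, r, hsr⟩ := h2 L hL2
      rw [Set.mem_iUnion]
      refine ⟨max (max s r) (max (encode L + 1) σ.length), ?_⟩
      set t := max (max s r) (max (encode L + 1) σ.length)
      have t1 : s ≤ t := (le_max_left _ _).trans (le_max_left _ _)
      have t2 : r ≤ t := (le_max_right _ _).trans (le_max_left _ _)
      have t3 : encode L + 1 ≤ t := (le_max_left _ _).trans (le_max_right _ _)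
      have t4 : σ.length ≤ t := (le_max_right _ _).trans (le_max_right _ _)
      show pre X t ∈ cl σ t (fun τ => cap c (640 * 2 ^ J.2) τ)
      rw [mem_cl]
      refine ⟨⟨t4, hX⟩, encode L, by rw [length_pre]; omega, L, by simp, hL1, s,
        by rw [length_pre]; omega, ?_⟩
      rw [length_pre, take_pre _ _ _ t1]
      exact acc_mono t2 hsr
    have hmono : Monotone fun t => {X | pre X t ∈ cl σ t (fun τ => cap c (640 * 2 ^ J.2) τ)} := by
      intro t t' htt X hX
      show pre X t' ∈ cl σ t' (fun τ => cap c (640 * 2 ^ J.2) τ)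
      change pre X t ∈ cl σ t (fun τ => cap c (640 * 2 ^ J.2) τ) at hX
      rw [mem_cl] at hX ⊢
      obtain ⟨⟨h1, h2⟩, u, hu, L, hL, hv, n, hn, ha⟩ := hX
      rw [length_pre] at hu hn ha
      refine ⟨⟨h1.trans htt, h2⟩, u, by rw [length_pre]; omega, L, hL, hv, n,
        by rw [length_pre]; omega, ?_⟩
      rw [length_pre, take_pre _ _ _ (by omega : n ≤ t')]
      rw [take_pre _ _ _ (by omega : n ≤ t)] at ha
      exact acc_mono htt ha
    have h1 : 9 * lam (cyl σ) < ⨆ t, 10 * lam {X | pre X t ∈ cl σ t (fun τ => cap c (640 * 2 ^ J.2) τ)} := by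
      refine lt_of_lt_of_le hσ ?_
      rw [← ENNReal.mul_iSup, ← hmono.measure_iUnion]
      gcongr
    obtain ⟨t, ht⟩ := lt_iSup_iff.1 h1
    rw [lam_cl, lam_cyl] at ht
    refine exists_good i J t ?_
    rw [hrc, hrs]
    have h3 := (ENNReal.toReal_lt_toReal (by
      exact ENNReal.mul_ne_top (by norm_num) (ENNReal.pow_ne_top (by norm_num))) (by
      exact ENNReal.mul_ne_top (by norm_num) (ENNReal.mul_ne_top (by simp)
        (ENNReal.pow_ne_top (by norm_num))))).2 ht
    rw [ENNReal.toReal_mul, ENNReal.toReal_mul, ENNReal.toReal_mul, real_pow_half, real_pow_half] at h3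
    generalize (cl σ t fun τ => cap c (640 * 2 ^ J.2) τ).length = q at h3 ⊢
    have e1 : (0 : ℝ) < 2 ^ t := by positivity
    have e2 : (0 : ℝ) < 2 ^ σ.length := by positivity
    rw [one_div, inv_pow, inv_pow] at h3
    simp only [ENNReal.toReal_ofNat, ENNReal.toReal_natCast] at h3
    have h4 : (9 : ℝ) * 2 ^ t < 10 * 2 ^ σ.length * q := by
      have h5 := mul_lt_mul_of_pos_right h3 (mul_pos e1 e2)
      have e3 : (9 : ℝ) * (2 ^ σ.length)⁻¹ * (2 ^ t * 2 ^ σ.length) = 9 * 2 ^ t := by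
        field_simp
      have e4 : (10 : ℝ) * (q * (2 ^ t)⁻¹) * (2 ^ t * 2 ^ σ.length) = 10 * 2 ^ σ.length * q := by
        field_simp
      rw [e3, e4] at h5
      exact h5
    exact le_of_lt (by exact_mod_cast h4)
  -- the actual next interval
  have hspec := JL_spec good out i
  rw [← hJ] at hspec
  rcases hspec with ⟨n, hn, hJn⟩ | hno
  swap
  · obtain ⟨n, hn⟩ := hgood
    rw [hno n] at hn
    cases hn
  have hcol := col_Col (good := good) (out := out) good_sub (i + 1)
  rw [hJn] at hcol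
  unfold good at hn
  rw [decide_eq_true_eq] at hn
  obtain ⟨-, hbig⟩ := hn
  rw [hrc, hrs] at hbig
  set a := (out n).1 with ha
  set m := (out n).2 with hm
  set t := n.unpair.1 with ht
  -- the clopen set meets the given set
  obtain ⟨X, hXS, hXK⟩ : ∃ X, X ∈ SS c cc ∧ pre X t ∈ cl σ t (fun τ => capt c (640 * 2 ^ J.2) τ a m) := by
    by_contra hcon
    push Not at hcon
    set K : Set (ℕ → Bool) := {X | pre X t ∈ cl σ t (fun τ => capt c (640 * 2 ^ J.2) τ a m)} with hK
    have hKm : MeasurableSet K := measurableSet_pre t _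
    have hKσ : K ⊆ cyl σ := fun X hX => ((mem_cl.1 hX).1).2
    have h1 : lam (SS c cc ∩ cyl σ) + lam K ≤ lam (cyl σ) := by
      have h2 : SS c cc ∩ cyl σ ⊆ cyl σ \ K := fun X hX => ⟨hX.2, hcon X hX.1⟩
      have h3 := measure_sdiff_add_inter (μ := lam) (cyl σ) hKm
      rw [Set.inter_eq_self_of_subset_right hKσ] at h3
      calc lam (SS c cc ∩ cyl σ) + lam K ≤ lam (cyl σ \ K) + lam K := by gcongr
        _ = _ := h3
    have h4 : lam K = (cl σ t (fun τ => capt c (640 * 2 ^ J.2) τ a m)).length * (1 / 2) ^ t :=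
      lam_cl _ _ _
    have r1 : (lam (SS c cc ∩ cyl σ)).toReal + (lam K).toReal ≤ (lam (cyl σ)).toReal := by
      rw [← ENNReal.toReal_add (measure_ne_top _ _) (measure_ne_top _ _)]
      exact ENNReal.toReal_mono (measure_ne_top _ _) h1
    have r2 : 9 * (lam (cyl σ)).toReal < 10 * (lam (SS c cc ∩ cyl σ)).toReal := by
      have := (ENNReal.toReal_lt_toReal (ENNReal.mul_ne_top (by norm_num) (measure_ne_top _ _))
        (ENNReal.mul_ne_top (by norm_num) (measure_ne_top _ _))).2 hσ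
      simpa [ENNReal.toReal_mul] using this
    have r3 : (lam (cyl σ)).toReal = (1 / 2 : ℝ) ^ σ.length := by rw [lam_cyl, real_pow_half]
    have r4 : 8 * (lam (cyl σ)).toReal ≤ 10 * (lam K).toReal := by
      rw [h4, ENNReal.toReal_mul, real_pow_half, r3, ENNReal.toReal_natCast]
      have h5 : (8 * 2 ^ t : ℝ) ≤ 10 * 2 ^ σ.length *
          (cl σ t (fun τ => capt c (640 * 2 ^ J.2) τ a m)).length := by exact_mod_cast hbig
      generalize ((cl σ t (fun τ => capt c (640 * 2 ^ J.2) τ a m)).length : ℝ) = q at h5 ⊢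
      have e1 : (0 : ℝ) < 2 ^ t := by positivity
      have e2 : (0 : ℝ) < 2 ^ σ.length := by positivity
      rw [one_div, inv_pow, inv_pow]
      refine le_of_mul_le_mul_right ?_ (mul_pos e1 e2)
      have e3 : (8 : ℝ) * (2 ^ σ.length)⁻¹ * (2 ^ t * 2 ^ σ.length) = 8 * 2 ^ t := by
        field_simp
      have e4 : (10 : ℝ) * (q * (2 ^ t)⁻¹) * (2 ^ t * 2 ^ σ.length) = 10 * 2 ^ σ.length * q := by
        field_simp
      rw [e3, e4]
      exact h5
    have r5 : 0 < (lam (cyl σ)).toReal := by rw [r3]; positivity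
    linarith
  obtain ⟨H, hH, ⟨b, hb⟩, hacc, -⟩ := hXS
  rw [mem_cl] at hXK
  obtain ⟨-, u, -, L, -, ⟨hLv, hLQ⟩, k, hk, hak⟩ := hXK
  rw [length_pre] at hk hak
  rw [take_pre _ _ _ (by omega : k ≤ t)] at hak
  have hLH : ∀ h ∈ L, h ∈ H := hacc _ _ _ hak
  obtain ⟨y0, hy0⟩ := hcol
  obtain ⟨y, hyH, hyL⟩ := hH.exists_gt (max y0 L.sum)
  obtain ⟨z, hz⟩ := hy0 y ((le_max_left _ _).trans hyL.le)
  have hne : ∀ h ∈ L, y ≠ h := by
    intro h hh he
    have h1 : h ≤ L.sum := List.single_le_sum (fun _ _ => Nat.zero_le _) h hh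
    have h2 : L.sum < y := lt_of_le_of_lt (le_max_right _ _) hyL
    omega
  have hmod : ∀ h w : ℕ, (h * a + w % 2 ^ (m + 1)) % 2 ^ (m + 1) = (h * a + w) % 2 ^ (m + 1) := by
    intro h w; rw [Nat.add_mod_mod]
  obtain ⟨h, hhL, h1⟩ := hLQ (z % 2 ^ (m + 1)) (Nat.mod_lt _ (by positivity))
  obtain ⟨h', hhL', h1'⟩ := hLQ ((z + 2 ^ m) % 2 ^ (m + 1)) (Nat.mod_lt _ (by positivity))
  rw [hmod] at h1 h1'
  have c1 : cc (y + h) = true := (hz h).1 h1
  have c2 : cc (y + h') = false := (hz h').2 h1'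
  rw [hb y hyH h (hLH h hhL) (hne h hhL)] at c1
  rw [hb y hyH h' (hLH h' hhL') (hne h' hhL')] at c2
  rw [c1] at c2
  cases c2

end Pool.Agent.V11258.HP
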